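import Pool.Agent.H39.VQ.Targets

/-! Module S0 of the vq board (MP_e21eee_nt, helper39). -/

set_option autoImplicit false

open Finset Polynomial

namespace Pool.Agent.H47.VQ

open Pool.Agent.H11.CV Pool.Agent.H39.VQ

open Classical in
theorem cnt_eq_sum {G : Type} [Fintype G] (S : Set G) :
    cnt S = ∑ g : G, if g ∈ S then (1 : ℝ) else 0 := by
  unfold cnt
  rw [Finset.card_filter]
  push_cast
  rfl

theorem fourth (a b N q : ℝ) (ha : 0 ≤ a) (hb : 0 ≤ b) (hN : 0 ≤ N) (hNq : N ≤ q)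
    (h : a ≤ 2 * b * N) : a ^ 4 ≤ 16 * b ^ 4 * q ^ 3 * N := by
  have h1 : a ^ 4 ≤ (2 * b * N) ^ 4 := pow_le_pow_left₀ ha h 4
  have h2 : N ^ 3 ≤ q ^ 3 := pow_le_pow_left₀ hN hNq 3
  have h3 : 0 ≤ 16 * b ^ 4 * N := by positivity
  have h4 := mul_le_mul_of_nonneg_left h2 h3
  calc a ^ 4 ≤ (2 * b * N) ^ 4 := h1
    _ = 16 * b ^ 4 * N * N ^ 3 := by ring
    _ ≤ 16 * b ^ 4 * N * q ^ 3 := h4
    _ = _ := by ring

open Classical in
theorem point (Z : Finset ℕ) (a : ℕ → ℂ) (c : ℕ → ℝ) (P : ℕ → Prop) (θ b : ℝ) (hθ : 0 < θ)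
    (hac : ∀ z ∈ Z, ‖a z‖ ≤ c z) (hc : ∀ z ∈ Z, c z ≤ 2 * b)
    (hP : ∀ z ∈ Z, ¬ P z → ‖a z‖ ≤ θ / 2 * c z) (h : θ * ∑ z ∈ Z, c z ≤ ‖∑ z ∈ Z, a z‖) :
    θ / 2 * ∑ z ∈ Z, c z ≤ 2 * b * ((Z.filter P).card : ℝ) := by
  have hc0 : ∀ z ∈ Z, 0 ≤ c z := fun z hz => (norm_nonneg _).trans (hac z hz)
  have h1 : ‖∑ z ∈ Z, a z‖ ≤ ∑ z ∈ Z, ((if P z then 2 * b else 0) + θ / 2 * c z) := by
    refine (norm_sum_le _ _).trans (Finset.sum_le_sum fun z hz => ?_)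
    by_cases hp : P z
    · rw [if_pos hp]
      have := hac z hz
      have := hc z hz
      have : 0 ≤ θ / 2 * c z := mul_nonneg (by linarith) (hc0 z hz)
      linarith
    · rw [if_neg hp]
      have := hP z hz hp
      linarith
  rw [Finset.sum_add_distrib, ← Finset.mul_sum, ← Finset.sum_filter, Finset.sum_const,
    nsmul_eq_mul] at h1
  linarith

theorem pf_S0 (hTY : V_TY) (hLV : V_LV) : V_S0 := by
  classical
  intro p L k ε G _ _ u0 u1 u2 w δ lam ξ θ hS hlam hθ hξ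
  obtain ⟨hA, hB, -⟩ := hTY p L k ε G u0 u1 u2 w δ lam hS hlam
  obtain ⟨hl0, hl1, hl2, hl3, -, -⟩ := hLV k
  have hp1 : 1 < p := hS.prime.one_lt
  have hle : lv k 1 ≤ lv k 0 := hl1 0 1 (by omega)
  set D : ℕ := lv k 0 - lv k 1 with hD
  have hD1 : D ≤ 1 := by omega
  set Z : Finset ℕ := range (p ^ D) with hZ
  set ρ : ℕ → ℕ := fun z => ξ + p ^ (lv k 1) * z with hρ
  have hρlt : ∀ z ∈ Z, ρ z < p ^ (lv k 0) := by
    intro z hz
    rw [hZ, Finset.mem_range] at hz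
    have h1 : lv k 0 = lv k 1 + D := by omega
    rw [h1, pow_add]
    have h2 : z + 1 ≤ p ^ D := hz
    calc ρ z < p ^ (lv k 1) + p ^ (lv k 1) * z := by
          simp only [hρ]
          omega
      _ = p ^ (lv k 1) * (z + 1) := by ring
      _ ≤ p ^ (lv k 1) * p ^ D := Nat.mul_le_mul_left _ h2
  set N : G → ℝ := fun g =>
    ((Z.filter fun z => g ∈ Oh p k lam w δ 0 (ρ z) (θ / 2)).card : ℝ) with hN
  have hNle : ∀ g, N g ≤ (p : ℝ) := by
    intro g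
    have h1 : (Z.filter fun z => g ∈ Oh p k lam w δ 0 (ρ z) (θ / 2)).card ≤ p ^ D := by
      refine (Finset.card_filter_le _ _).trans ?_
      rw [hZ, Finset.card_range]
    have h2 : p ^ D ≤ p := by
      calc p ^ D ≤ p ^ 1 := Nat.pow_le_pow_right (by omega) hD1
        _ = p := pow_one p
    show ((Z.filter fun z => g ∈ Oh p k lam w δ 0 (ρ z) (θ / 2)).card : ℝ) ≤ (p : ℝ)
    exact_mod_cast h1.trans h2
  have hN0 : ∀ g, 0 ≤ N g := fun g => Nat.cast_nonneg _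
  have hpt : ∀ g ∈ Oh p k lam w δ 1 ξ θ,
      (θ / 2 * lam 1) ^ 4 ≤ 16 * lam 0 ^ 4 * (p : ℝ) ^ 3 * N g := by
    intro g hg
    obtain ⟨hg1, hg2⟩ := hg
    have hc1 : lam 1 ≤ cn p k lam w 1 ξ g := ((hA 1 ξ hξ).1 g).2.2.2 hg1
    obtain ⟨he1, he2⟩ := ((hB 0 ξ hξ) g).1 hg1
    have he1' : cn p k lam w 1 ξ g = ∑ z ∈ Z, cn p k lam w 0 (ρ z) g := he1
    have he2' : hn p k lam w δ 1 ξ g = ∑ z ∈ Z, hn p k lam w δ 0 (ρ z) g := he2
    have hpp := point Z (fun z => hn p k lam w δ 0 (ρ z) g) (fun z => cn p k lam w 0 (ρ z) g)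
      (fun z => g ∈ Oh p k lam w δ 0 (ρ z) (θ / 2)) θ (lam 0) hθ
      (fun z hz => ((hA 0 (ρ z) (hρlt z hz)).1 g).2.1)
      (fun z hz => ((hA 0 (ρ z) (hρlt z hz)).1 g).2.2.1.le)
      (by
        intro z hz hnP
        have hn1 := ((hA 0 (ρ z) (hρlt z hz)).1 g).2.1
        by_cases h0 : cn p k lam w 0 (ρ z) g = 0
        · rw [h0] at hn1 ⊢
          rw [mul_zero]
          exact hn1
        · by_contra hcon
          rw [not_le] at hcon
          exact hnP ⟨h0, hcon.le⟩)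
      (by
        rw [← he1', ← he2']
        exact hg2)
    refine fourth (θ / 2 * lam 1) (lam 0) (N g) p ?_ (hlam 0).le (hN0 g) (hNle g) ?_
    · have := hlam 1
      positivity
    · refine le_trans ?_ hpp
      rw [← he1']
      exact mul_le_mul_of_nonneg_left hc1 (by linarith)
  have hsumN : ∑ g : G, N g = ∑ z ∈ Z, cnt (Oh p k lam w δ 0 (ρ z) (θ / 2)) := by
    simp only [hN]
    calc ∑ g : G, ((Z.filter fun z => g ∈ Oh p k lam w δ 0 (ρ z) (θ / 2)).card : ℝ)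
        = ∑ g : G, ∑ z ∈ Z, if g ∈ Oh p k lam w δ 0 (ρ z) (θ / 2) then (1 : ℝ) else 0 := by
          refine Finset.sum_congr rfl fun g _ => ?_
          rw [Finset.card_filter]
          push_cast
          rfl
      _ = ∑ z ∈ Z, ∑ g : G, if g ∈ Oh p k lam w δ 0 (ρ z) (θ / 2) then (1 : ℝ) else 0 :=
          Finset.sum_comm
      _ = _ := by
          refine Finset.sum_congr rfl fun z _ => ?_
          rw [cnt_eq_sum]
  have hmain : (θ / 2 * lam 1) ^ 4 * cnt (Oh p k lam w δ 1 ξ θ) ≤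
      16 * lam 0 ^ 4 * (p : ℝ) ^ 3 * ∑ z ∈ Z, cnt (Oh p k lam w δ 0 (ρ z) (θ / 2)) := by
    rw [cnt_eq_sum, ← hsumN, Finset.mul_sum, Finset.mul_sum]
    refine Finset.sum_le_sum fun g _ => ?_
    by_cases hg : g ∈ Oh p k lam w δ 1 ξ θ
    · rw [if_pos hg, mul_one]
      exact hpt g hg
    · rw [if_neg hg, mul_zero]
      have h1 := hN0 g
      have h2 := hlam 0
      positivity
  have hθ2 : (0 : ℝ) ≤ (2 / θ) ^ 4 := by positivity
  have hfin := mul_le_mul_of_nonneg_left hmain hθ2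
  have he : (2 / θ) ^ 4 * ((θ / 2 * lam 1) ^ 4 * cnt (Oh p k lam w δ 1 ξ θ)) =
      lam 1 ^ 4 * cnt (Oh p k lam w δ 1 ξ θ) := by
    have h1 : (2 / θ) * (θ / 2) = 1 := by
      field_simp
    calc (2 / θ) ^ 4 * ((θ / 2 * lam 1) ^ 4 * cnt (Oh p k lam w δ 1 ξ θ))
        = ((2 / θ) * (θ / 2)) ^ 4 * (lam 1 ^ 4 * cnt (Oh p k lam w δ 1 ξ θ)) := by ring
      _ = _ := by rw [h1, one_pow, one_mul]
  rw [he] at hfin
  refine hfin.trans (le_of_eq ?_)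
  ring

end Pool.Agent.H47.VQ
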