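import Pool.Agent.H39.VQ.Targets

/-! Module SO of the vq board (MP_e21eee_nt, helper39). -/

set_option autoImplicit false

open Finset Polynomial

namespace Pool.Agent.H47.VQ

open Pool.Agent.H11.CV Pool.Agent.H39.VQ

theorem pf_SO (hRC : V_RC) (hL0 : T_L0) : V_SO := by
  intro p hp hpd
  obtain ⟨C₀, hC₀, hrc⟩ := hRC p hp hpd
  have hL := hL0 p 3 hp.one_lt (by omega)
  refine ⟨5 * C₀ + 10, by linarith, ?_⟩
  intro n
  have hn0 : (0 : ℝ) ≤ (n : ℝ) := Nat.cast_nonneg n
  set l : ℝ := Real.log ((n : ℝ) + 2) with hl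
  have hl2 : Real.log 2 ≤ l := Real.log_le_log (by norm_num) (by linarith)
  have hlog2 : (1 : ℝ) / 2 < Real.log 2 := by
    have := Real.log_two_gt_d9
    linarith
  set W : ℝ := Real.exp (C₀ * l ^ 2) with hW
  have hW1 : 1 ≤ W := Real.one_le_exp (by positivity)
  set V : ℝ := (2 * W) ^ 5 with hV
  have h2W : 1 ≤ 2 * W := by linarith
  have hV1 : 1 ≤ V := one_le_pow₀ h2W
  have hV0 : 0 ≤ V := by linarith
  have hV45 : V ^ ((4 : ℝ) / 5) = (2 * W) ^ 4 := by
    rw [hV, ← Real.rpow_natCast (2 * W) 5, ← Real.rpow_mul (by linarith),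
      ← Real.rpow_natCast (2 * W) 4]
    congr 1
    norm_num
  have hVW : V / 2 + W * V ^ ((4 : ℝ) / 5) = V := by
    rw [hV45, hV]
    ring
  have hlev : ∀ i : ℕ, i ≤ n → Lev p 3 i V := by
    intro i
    induction i using Nat.strong_induction_on with
    | _ i ih =>
      intro hi
      rcases Nat.eq_zero_or_pos i with rfl | hi0
      · exact hL.2.1 0 1 V hV1 hL.1
      · have h1 := hrc i V hi0 hV1 (fun j hj => ih j hj (by omega))
        refine hL.2.1 i _ V ?_ h1
        have hi' : (i : ℝ) ≤ (n : ℝ) := by exact_mod_cast hi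
        have hi0' : (0 : ℝ) ≤ (i : ℝ) := Nat.cast_nonneg i
        have h2 : Real.log ((i : ℝ) + 2) ≤ l := Real.log_le_log (by linarith) (by linarith)
        have h3 : 0 ≤ Real.log ((i : ℝ) + 2) := Real.log_nonneg (by linarith)
        have h4 : Real.exp (C₀ * Real.log ((i : ℝ) + 2) ^ 2) ≤ W := by
          rw [hW]
          apply Real.exp_le_exp.2
          gcongr
        have h5 : 0 ≤ V ^ ((4 : ℝ) / 5) := Real.rpow_nonneg hV0 _
        have h6 := mul_le_mul_of_nonneg_right h4 h5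
        linarith
  refine hL.2.1 n V _ ?_ (hlev n le_rfl)
  have h7 : 2 * W ≤ Real.exp (2 * l ^ 2 + C₀ * l ^ 2) := by
    rw [Real.exp_add, ← hW]
    refine mul_le_mul_of_nonneg_right ?_ (by linarith)
    have h8 : (2 : ℝ) = Real.exp (Real.log 2) := (Real.exp_log (by norm_num)).symm
    calc (2 : ℝ) = Real.exp (Real.log 2) := h8
      _ ≤ Real.exp (2 * l ^ 2) := by
        apply Real.exp_le_exp.2
        nlinarith only [hl2, hlog2]
  calc V ≤ Real.exp (2 * l ^ 2 + C₀ * l ^ 2) ^ 5 := pow_le_pow_left₀ (by linarith) h7 5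
    _ = Real.exp ((5 * C₀ + 10) * l ^ 2) := by
      rw [← Real.exp_nat_mul]
      congr 1
      push_cast
      ring

end Pool.Agent.H47.VQ
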